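import Mathlib

open Filter Topology OnePoint

namespace Pool.Agent.Lib.MP_a78abf_an

/-- The slow continued fraction map on the extended line (reals with one point at infinity). -/
noncomputable def cfMap (a b : ℝ) (p : OnePoint ℝ) : OnePoint ℝ :=
  OnePoint.elim p ∞
    (fun x : ℝ =>
      if x < a then ((x + 1 : ℝ) : OnePoint ℝ)
      else if x < b then (if x = 0 then ∞ else ((-1 / x : ℝ) : OnePoint ℝ))
      else ((x - 1 : ℝ) : OnePoint ℝ))

/-- The inverse of `k(x) = x / (1 + |x|)`; both end points go to infinity. -/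
noncomputable def kInv (t : Set.Icc (-1 : ℝ) 1) : OnePoint ℝ :=
  if |(t : ℝ)| = 1 then ∞ else (((t : ℝ) / (1 - |(t : ℝ)|) : ℝ) : OnePoint ℝ)

/-- `F` is the interval map `k ∘ f ∘ k⁻¹`, for some choice of `1` or `-1` as the value at each of
the points that are sent to infinity. -/
def IsIntervalModel (a b : ℝ) (F : Set.Icc (-1 : ℝ) 1 → Set.Icc (-1 : ℝ) 1) : Prop :=
  ∀ t, kInv (F t) = cfMap a b (kInv t)

/-- The laps of `g`: maximal intervals on which `g` is monotone
(and, when `c = true`, also continuous). -/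
def laps (c : Bool) (g : Set.Icc (-1 : ℝ) 1 → Set.Icc (-1 : ℝ) 1) :
    Set (Set (Set.Icc (-1 : ℝ) 1)) :=
  {J | Maximal (fun J : Set (Set.Icc (-1 : ℝ) 1) =>
    J.OrdConnected ∧ (MonotoneOn g J ∨ AntitoneOn g J) ∧ (c = true → ContinuousOn g J)) J}

/-- The lap-growth entropy of the map with parameters `a, b` exists and equals `h`. -/
def HasEntropy (c : Bool) (a b h : ℝ) : Prop :=
  (∃ F, IsIntervalModel a b F) ∧
  ∀ F, IsIntervalModel a b F →
    (∀ n : ℕ, (laps c F^[n]).Finite) ∧
    Tendsto (fun n : ℕ => Real.log ((laps c F^[n]).ncard : ℝ) / n) atTop (𝓝 h)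

end Pool.Agent.Lib.MP_a78abf_an
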