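import Mathlib
import Pool.Agent.Lib.MP_a78abf_an.Defs

-- part Pool.Agent.Lib.MP_a78abf_an.Laps
section

/-! Abstract lap counting for piecewise strictly increasing self-maps of a dense linear order. -/

open Filter Topology Set

namespace Pool.Agent.Lib.MP_a78abf_an

variable {X : Type} [LinearOrder X] [TopologicalSpace X]

/-- interval of strict increase (and continuity if `c`) -/
def Good (c : Bool) (g : X → X) (J : Set X) : Prop :=
  J.OrdConnected ∧ StrictMonoOn g J ∧ (c = true → ContinuousOn g J)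

def Piece (c : Bool) (g : X → X) (J : Set X) : Prop :=
  J.OrdConnected ∧ (MonotoneOn g J ∨ AntitoneOn g J) ∧ (c = true → ContinuousOn g J)

def Lp (c : Bool) (g : X → X) : Set (Set X) := {J | Maximal (Piece c g) J}

def PW (c : Bool) (g : X → X) : Prop :=
  ∃ (ι : Type) (_ : Finite ι) (C : ι → Set X), (∀ i, Good c g (C i)) ∧ ∀ x, ∃ i, x ∈ C i

lemma good_of_subsingleton (c : Bool) (g : X → X) {J : Set X} (hJ : J.Subsingleton) :
    Good c g J :=
  ⟨⟨fun u hu v hv w hw => by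
      have e : u = v := hJ hu hv
      have : w = u := le_antisymm (e ▸ hw.2) hw.1
      exact this ▸ hu⟩, hJ.strictMonoOn g, fun _ => hJ.continuousOn g⟩

lemma Good.piece {c : Bool} {g : X → X} {J : Set X} (h : Good c g J) : Piece c g J :=
  ⟨h.1, Or.inl h.2.1.monotoneOn, h.2.2⟩

lemma PW.exists_inc [DenselyOrdered X] {c : Bool} {g : X → X} (h : PW c g) {u v : X} (huv : u < v) :
    ∃ p q, u ≤ p ∧ p < q ∧ q ≤ v ∧ g p < g q := by
  obtain ⟨ι, _, C, hC, hcov⟩ := h
  choose φ hφ using hcov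
  have hinf : (Icc u v).Infinite := Set.Icc_infinite huv
  obtain ⟨p, hp, q, hq, hne, he⟩ := hinf.exists_ne_map_eq_of_mapsTo (f := φ) (t := univ)
    (mapsTo_univ _ _) (Set.toFinite _)
  rcases lt_or_gt_of_ne hne with hlt | hlt
  · exact ⟨p, q, hp.1, hlt, hq.2, (hC (φ p)).2.1 (hφ p) (he ▸ hφ q) hlt⟩
  · exact ⟨q, p, hq.1, hlt, hp.2, (hC (φ p)).2.1 (he ▸ hφ q) (hφ p) hlt⟩

lemma PW.good_of_piece [DenselyOrdered X] {c : Bool} {g : X → X} (h : PW c g) {J : Set X}
    (hJ : Piece c g J) : Good c g J := by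
  refine ⟨hJ.1, ?_, hJ.2.2⟩
  intro u hu v hv huv
  obtain ⟨p, q, h1, h2, h3, h4⟩ := h.exists_inc huv
  have hp : p ∈ J := hJ.1.out hu hv ⟨h1, h2.le.trans h3⟩
  have hq : q ∈ J := hJ.1.out hu hv ⟨h1.trans h2.le, h3⟩
  rcases hJ.2.1 with hm | ha
  · exact lt_of_le_of_lt (hm hu hp h1) (lt_of_lt_of_le h4 (hm hq hv h3))
  · exact absurd (ha hp hq h2.le) (not_le.2 h4)

lemma good_sUnion [OrderTopology X] {c : Bool} {g : X → X} {S : Set (Set X)} {x : X}
    (hS : ∀ J ∈ S, Good c g J) (hx : ∀ J ∈ S, x ∈ J) : Good c g (⋃₀ S) := by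
  refine ⟨⟨?_⟩, ?_, ?_⟩
  · rintro u ⟨J, hJ, hu⟩ v ⟨K, hK, hv⟩ w ⟨h1, h2⟩
    rcases le_total w x with h | h
    · exact ⟨J, hJ, (hS J hJ).1.out hu (hx J hJ) ⟨h1, h⟩⟩
    · exact ⟨K, hK, (hS K hK).1.out (hx K hK) hv ⟨h, h2⟩⟩
  · rintro u ⟨J, hJ, hu⟩ v ⟨K, hK, hv⟩ huv
    rcases le_total v x with h | h
    · exact (hS J hJ).2.1 hu ((hS J hJ).1.out hu (hx J hJ) ⟨huv.le, h⟩) huv
    · rcases le_or_gt x u with h' | h'
      · exact (hS K hK).2.1 ((hS K hK).1.out (hx K hK) hv ⟨h', huv.le⟩) hv huv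
      · exact lt_of_lt_of_le ((hS J hJ).2.1 hu (hx J hJ) h')
          ((hS K hK).2.1.monotoneOn (hx K hK) hv h)
  · rintro hc y ⟨J, hJ, hy⟩
    have hsplit : ⋃₀ S = (⋃₀ S ∩ Iic y) ∪ (⋃₀ S ∩ Ici y) := by
      rw [← inter_union_distrib_left, Iic_union_Ici, inter_univ]
    rw [hsplit]
    refine ContinuousWithinAt.union ?_ ?_
    · by_cases hz : ∃ z ∈ ⋃₀ S, z < y
      · obtain ⟨z, ⟨K, hK, hzK⟩, hzy⟩ := hz
        have : ∃ z', z' < y ∧ ∃ L ∈ S, Icc z' y ⊆ L := by
          rcases le_or_gt y x with h | h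
          · exact ⟨z, hzy, K, hK, fun w hw => (hS K hK).1.out hzK (hx K hK) ⟨hw.1, hw.2.trans h⟩⟩
          · exact ⟨x, h, J, hJ, (hS J hJ).1.out (hx J hJ) hy⟩
        obtain ⟨z', hz', L, hL, hsub⟩ := this
        have h1 : ContinuousWithinAt g (Icc z' y) y :=
          (((hS L hL).2.2 hc) y (hsub ⟨hz'.le, le_rfl⟩)).mono hsub
        exact ((continuousWithinAt_Icc_iff_Iic hz').1 h1).mono inter_subset_right
      · refine (continuousWithinAt_singleton (f := g) (x := y)).mono ?_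
        rintro w ⟨hw, hwy⟩
        by_contra hne
        exact hz ⟨w, hw, lt_of_le_of_ne hwy hne⟩
    · by_cases hz : ∃ z ∈ ⋃₀ S, y < z
      · obtain ⟨z, ⟨K, hK, hzK⟩, hzy⟩ := hz
        have : ∃ z', y < z' ∧ ∃ L ∈ S, Icc y z' ⊆ L := by
          rcases le_or_gt x y with h | h
          · exact ⟨z, hzy, K, hK, fun w hw => (hS K hK).1.out (hx K hK) hzK ⟨h.trans hw.1, hw.2⟩⟩
          · exact ⟨x, h, J, hJ, (hS J hJ).1.out hy (hx J hJ)⟩
        obtain ⟨z', hz', L, hL, hsub⟩ := this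
        have h1 : ContinuousWithinAt g (Icc y z') y :=
          (((hS L hL).2.2 hc) y (hsub ⟨le_rfl, hz'.le⟩)).mono hsub
        exact ((continuousWithinAt_Icc_iff_Ici hz').1 h1).mono inter_subset_right
      · refine (continuousWithinAt_singleton (f := g) (x := y)).mono ?_
        rintro w ⟨hw, hwy⟩
        by_contra hne
        exact hz ⟨w, hw, lt_of_le_of_ne hwy (Ne.symm hne)⟩

/-- the union of all good intervals through `x` -/
def comp (c : Bool) (g : X → X) (x : X) : Set X := ⋃₀ {J | Good c g J ∧ x ∈ J}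

lemma comp_good [OrderTopology X] (c : Bool) (g : X → X) (x : X) : Good c g (comp c g x) :=
  good_sUnion (x := x) (fun _ h => h.1) (fun _ h => h.2)

lemma subset_comp {c : Bool} {g : X → X} {x : X} {J : Set X} (h : Good c g J) (hx : x ∈ J) :
    J ⊆ comp c g x := subset_sUnion_of_mem (t := J) ⟨h, hx⟩

lemma mem_comp (c : Bool) (g : X → X) (x : X) : x ∈ comp c g x :=
  subset_comp (good_of_subsingleton c g subsingleton_singleton) rfl rfl

variable [DenselyOrdered X] [OrderTopology X]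

lemma PW.comp_mem {c : Bool} {g : X → X} (h : PW c g) (x : X) : comp c g x ∈ Lp c g :=
  ⟨(comp_good c g x).piece, fun _ hK hsub =>
    subset_comp (h.good_of_piece hK) (hsub (mem_comp c g x))⟩

lemma PW.eq_comp {c : Bool} {g : X → X} (h : PW c g) {J : Set X} (hJ : J ∈ Lp c g) {x : X}
    (hx : x ∈ J) : J = comp c g x :=
  le_antisymm (subset_comp (h.good_of_piece hJ.1) hx)
    (hJ.2 (comp_good c g x).piece (subset_comp (h.good_of_piece hJ.1) hx))

omit [DenselyOrdered X] [OrderTopology X] in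
lemma lap_nonempty [Nonempty X] {c : Bool} {g : X → X} {J : Set X} (hJ : J ∈ Lp c g) :
    J.Nonempty := by
  rcases J.eq_empty_or_nonempty with rfl | h
  · obtain ⟨x⟩ := ‹Nonempty X›
    have := hJ.2 (good_of_subsingleton c g (subsingleton_singleton (a := x))).piece
      (empty_subset _)
    exact absurd (this rfl) (notMem_empty x)
  · exact h

lemma lap_le_cover [Nonempty X] {c : Bool} {g : X → X} {ι : Type} [Finite ι] (C : ι → Set X)
    (hC : ∀ i, Good c g (C i)) (hcov : ∀ x, ∃ i, x ∈ C i) :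
    (Lp c g).Finite ∧ (Lp c g).ncard ≤ Nat.card ι := by
  have h : PW c g := ⟨ι, inferInstance, C, hC, hcov⟩
  choose φ hφ using hcov
  have hne : ∀ J : Lp c g, ∃ x, x ∈ (J : Set X) := fun J => lap_nonempty J.2
  choose pt hpt using hne
  have hinj : Function.Injective (fun J : Lp c g => φ (pt J)) := by
    intro J K hJK
    have e : φ (pt J) = φ (pt K) := hJK
    apply Subtype.ext
    have h1 : pt K ∈ (J : Set X) := by
      rw [h.eq_comp J.2 (hpt J)]
      exact subset_comp (hC (φ (pt J))) (hφ _) (e ▸ hφ (pt K))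
    rw [h.eq_comp J.2 h1, ← h.eq_comp K.2 (hpt K)]
  have hfin : Finite (Lp c g) := Finite.of_injective _ hinj
  exact ⟨Set.toFinite _, Nat.card_le_card_of_injective _ hinj⟩

lemma PW.finite [Nonempty X] {c : Bool} {g : X → X} (h : PW c g) : (Lp c g).Finite := by
  obtain ⟨ι, _, C, hC, hcov⟩ := h
  exact (lap_le_cover C hC hcov).1

lemma PW.one_le [Nonempty X] {c : Bool} {g : X → X} (h : PW c g) : 1 ≤ (Lp c g).ncard := by
  obtain ⟨x⟩ := ‹Nonempty X›
  exact (Set.ncard_pos h.finite).2 ⟨_, h.comp_mem x⟩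

omit [DenselyOrdered X] [OrderTopology X] in
lemma Good.inter_preimage {c : Bool} {g : X → X} {J K : Set X} (hJ : Good c g J)
    (hK : K.OrdConnected) : Good c g (J ∩ g ⁻¹' K) := by
  refine ⟨⟨?_⟩, hJ.2.1.mono inter_subset_left, fun hc => (hJ.2.2 hc).mono inter_subset_left⟩
  rintro u ⟨hu, hu'⟩ v ⟨hv, hv'⟩ w hw
  have hwJ := hJ.1.out hu hv hw
  exact ⟨hwJ, hK.out hu' hv' ⟨hJ.2.1.monotoneOn hu hwJ hw.1, hJ.2.1.monotoneOn hwJ hv hw.2⟩⟩

omit [DenselyOrdered X] [OrderTopology X] in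
lemma Good.comp' {c : Bool} {g f : X → X} {J K : Set X} (hJ : Good c g J) (hK : Good c f K) :
    Good c (f ∘ g) (J ∩ g ⁻¹' K) := by
  have h := hJ.inter_preimage hK.1
  refine ⟨h.1, hK.2.1.comp h.2.1 (fun x hx => hx.2), fun hc => ?_⟩
  exact (hK.2.2 hc).comp (h.2.2 hc) (fun x hx => hx.2)

lemma PW.comp_le [Nonempty X] {c : Bool} {f g : X → X} (hf : PW c f) (hg : PW c g) :
    PW c (f ∘ g) ∧ (Lp c (f ∘ g)).ncard ≤ (Lp c f).ncard * (Lp c g).ncard := by
  have : Finite (Lp c f) := hf.finite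
  have : Finite (Lp c g) := hg.finite
  let C : Lp c f × Lp c g → Set X := fun p => (p.2 : Set X) ∩ g ⁻¹' (p.1 : Set X)
  have hC : ∀ i, Good c (f ∘ g) (C i) := fun p =>
    (hg.good_of_piece p.2.2.1).comp' (hf.good_of_piece p.1.2.1)
  have hcov : ∀ x, ∃ i, x ∈ C i := fun x =>
    ⟨(⟨_, hf.comp_mem (g x)⟩, ⟨_, hg.comp_mem x⟩), mem_comp c g x, mem_comp c f (g x)⟩
  refine ⟨⟨_, inferInstance, C, hC, hcov⟩, ?_⟩
  have := (lap_le_cover C hC hcov).2
  rwa [Nat.card_prod] at this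

omit [DenselyOrdered X] [OrderTopology X] in
lemma pw_id (c : Bool) : PW c (id : X → X) :=
  ⟨Unit, inferInstance, fun _ => univ,
    fun _ => ⟨ordConnected_univ, strictMono_id.strictMonoOn _, fun _ => continuousOn_id⟩,
    fun x => ⟨(), mem_univ x⟩⟩

lemma PW.iterate [Nonempty X] {c : Bool} {f : X → X} (hf : PW c f) (n : ℕ) : PW c f^[n] := by
  induction n with
  | zero => exact pw_id c
  | succ n ih => rw [Function.iterate_succ]; exact (ih.comp_le hf).1

/-- changing the values at the points that go to `lo` or `hi` costs a factor three -/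
lemma PW.modify_le [Nonempty X] {c : Bool} {f g : X → X} (hf : PW c f) (lo hi : X)
    (hlo : ∀ x, lo ≤ x) (hhi : ∀ x, x ≤ hi) (h : ∀ x, lo < f x → f x < hi → g x = f x) :
    (Lp c g).ncard ≤ 3 * (Lp c f).ncard := by
  have : Finite (Lp c f) := hf.finite
  let K : Fin 3 → Set X := ![{lo}, Ioo lo hi, {hi}]
  let C : Fin 3 × Lp c f → Set X := fun p => (p.2 : Set X) ∩ f ⁻¹' (K p.1)
  have hsing : ∀ (J : Set X) (y : X), Good c f J → (J ∩ f ⁻¹' {y}).Subsingleton := by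
    rintro J y hJ u ⟨hu, hu'⟩ v ⟨hv, hv'⟩
    exact hJ.2.1.injOn hu hv (hu'.trans hv'.symm)
  have hC : ∀ i, Good c g (C i) := by
    rintro ⟨i, J⟩
    have hJ := hf.good_of_piece J.2.1
    fin_cases i
    · exact good_of_subsingleton c g (hsing _ _ hJ)
    · have h1 : Good c f ((J : Set X) ∩ f ⁻¹' (Ioo lo hi)) := hJ.inter_preimage ordConnected_Ioo
      have he : EqOn f g ((J : Set X) ∩ f ⁻¹' (Ioo lo hi)) := fun x hx =>
        (h x hx.2.1 hx.2.2).symm
      exact ⟨h1.1, h1.2.1.congr he, fun hc => (h1.2.2 hc).congr he.symm⟩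
    · exact good_of_subsingleton c g (hsing _ _ hJ)
  have hcov : ∀ x, ∃ i, x ∈ C i := by
    intro x
    rcases (hlo (f x)).eq_or_lt with h1 | h1
    · exact ⟨(0, ⟨_, hf.comp_mem x⟩), mem_comp c f x, h1.symm⟩
    · rcases (hhi (f x)).eq_or_lt with h2 | h2
      · exact ⟨(2, ⟨_, hf.comp_mem x⟩), mem_comp c f x, h2⟩
      · exact ⟨(1, ⟨_, hf.comp_mem x⟩), mem_comp c f x, h1, h2⟩
  have := (lap_le_cover C hC hcov).2
  rwa [Nat.card_prod, Nat.card_eq_fintype_card (α := Fin 3), Fintype.card_fin] at this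

/-- existence of the growth rate -/
lemma PW.exists_lim [Nonempty X] {c : Bool} {f : X → X} (hf : PW c f) :
    ∃ h : ℝ, Tendsto (fun n : ℕ => Real.log ((Lp c f^[n]).ncard : ℝ) / n) atTop (𝓝 h) := by
  have hpos : ∀ n, (0 : ℝ) < ((Lp c f^[n]).ncard : ℝ) := fun n => by
    exact_mod_cast (hf.iterate n).one_le
  have hsub : Subadditive (fun n : ℕ => Real.log ((Lp c f^[n]).ncard : ℝ)) := by
    intro m n
    rw [← Real.log_mul (hpos m).ne' (hpos n).ne']
    refine Real.log_le_log (hpos _) ?_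
    rw [Function.iterate_add]
    exact_mod_cast ((hf.iterate m).comp_le (hf.iterate n)).2
  refine ⟨_, hsub.tendsto_lim ⟨0, ?_⟩⟩
  rintro _ ⟨n, rfl⟩
  exact div_nonneg (Real.log_natCast_nonneg _) (Nat.cast_nonneg _)

lemma lim_le_of_shift {u v : ℕ → ℝ} {h k C : ℝ}
    (hu : Tendsto (fun n : ℕ => u n / n) atTop (𝓝 h))
    (hv : Tendsto (fun n : ℕ => v n / n) atTop (𝓝 k))
    (hle : ∀ n, u (n + 2) ≤ C + v n) : h ≤ k := by
  have h1 : Tendsto (fun n : ℕ => u (n + 2) / ((n + 2 : ℕ) : ℝ)) atTop (𝓝 h) :=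
    hu.comp (tendsto_add_atTop_nat 2)
  have h2 : Tendsto (fun n : ℕ => 1 + (2 : ℝ) / n) atTop (𝓝 (1 + 0)) :=
    tendsto_const_nhds.add (tendsto_const_div_atTop_nhds_zero_nat 2)
  have h3 := h1.mul h2
  have h4 : Tendsto (fun n : ℕ => C / n + v n / n) atTop (𝓝 (0 + k)) :=
    (tendsto_const_div_atTop_nhds_zero_nat C).add hv
  simp only [add_zero, mul_one, zero_add] at h3 h4
  refine le_of_tendsto_of_tendsto h3 h4 ?_
  filter_upwards [eventually_gt_atTop 0] with n hn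
  have hn' : (0 : ℝ) < n := by exact_mod_cast hn
  have e : u (n + 2) / ((n + 2 : ℕ) : ℝ) * (1 + (2 : ℝ) / n) = u (n + 2) / n := by
    push_cast; field_simp
  rw [e, ← add_div]
  exact div_le_div_of_nonneg_right (hle n) hn'.le

end Pool.Agent.Lib.MP_a78abf_an
end

-- part Pool.Agent.Lib.MP_a78abf_an.Proof
section

open Filter Topology Set OnePoint

namespace Pool.Agent.Lib.MP_a78abf_an

abbrev XI : Type := Set.Icc (-1 : ℝ) 1

instance : Nonempty XI := ⟨⟨0, by norm_num⟩⟩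

lemma laps_eq (c : Bool) (g : XI → XI) : laps c g = Lp c g := rfl

/-! ### the conjugacy -/

noncomputable def kk (y : ℝ) : ℝ := y / (1 + |y|)
noncomputable def ki (t : ℝ) : ℝ := t / (1 - |t|)

lemma abs_kk (y : ℝ) : |kk y| = |y| / (1 + |y|) := by
  have : 0 < 1 + |y| := by positivity
  rw [kk, abs_div, abs_of_pos this]

lemma abs_kk_lt (y : ℝ) : |kk y| < 1 := by
  have : 0 < 1 + |y| := by positivity
  rw [abs_kk, div_lt_one this]; linarith

lemma ki_kk (y : ℝ) : ki (kk y) = y := by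
  have : 0 < 1 + |y| := by positivity
  rw [ki, abs_kk, kk]
  field_simp
  ring

lemma kk_ki {t : ℝ} (ht : |t| < 1) : kk (ki t) = t := by
  have h : 0 < 1 - |t| := by linarith
  rw [kk, ki, abs_div, abs_of_pos h]
  field_simp
  ring

lemma kk_strictMono : StrictMono kk := by
  intro x y hxy
  have hx : 0 < 1 + |x| := by positivity
  have hy : 0 < 1 + |y| := by positivity
  rw [kk, kk, div_lt_div_iff₀ hx hy]
  rcases abs_cases x with ⟨h1, h2⟩ | ⟨h1, h2⟩ <;> rcases abs_cases y with ⟨h3, h4⟩ | ⟨h3, h4⟩ <;>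
    rw [h1, h3] <;> nlinarith

lemma kk_continuous : Continuous kk := by
  unfold kk
  exact continuous_id.div (continuous_const.add continuous_abs) (fun x => by positivity)

lemma ki_lt {s t : ℝ} (hs : |s| < 1) (ht : |t| < 1) (h : s < t) : ki s < ki t := by
  rw [← kk_strictMono.lt_iff_lt, kk_ki hs, kk_ki ht]; exact h

lemma ki_le {s t : ℝ} (hs : |s| < 1) (ht : |t| < 1) (h : s ≤ t) : ki s ≤ ki t := by
  rw [← kk_strictMono.le_iff_le, kk_ki hs, kk_ki ht]; exact h

lemma abs_le_one (t : XI) : |(t : ℝ)| ≤ 1 := abs_le.2 t.2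

lemma kInv_of_lt {t : XI} (ht : |(t : ℝ)| < 1) : kInv t = ((ki t : ℝ) : OnePoint ℝ) := by
  rw [kInv, if_neg ht.ne]; rfl

lemma eq_of_kInv {t : XI} {y : ℝ} (h : kInv t = (y : OnePoint ℝ)) : (t : ℝ) = kk y := by
  rcases (abs_le_one t).eq_or_lt with h1 | h1
  · rw [kInv, if_pos h1] at h
    exact absurd h (OnePoint.infty_ne_coe y)
  · rw [kInv_of_lt h1, OnePoint.coe_eq_coe] at h
    rw [← h, kk_ki h1]

lemma kInv_surj (p : OnePoint ℝ) : ∃ t : XI, kInv t = p := by
  induction p using OnePoint.rec with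
  | infty => exact ⟨⟨1, by norm_num⟩, by simp [kInv]⟩
  | coe y =>
    have h := abs_kk_lt y
    refine ⟨⟨kk y, (abs_le.1 h.le)⟩, ?_⟩
    rw [kInv_of_lt h, ki_kk]

lemma exists_model (a b : ℝ) : ∃ F, IsIntervalModel a b F := by
  choose s hs using kInv_surj
  exact ⟨fun t => s (cfMap a b (kInv t)), fun t => hs _⟩

lemma eq_of_kInv_eq {s t : XI} (h : kInv s = kInv t) (ht : |(t : ℝ)| < 1) : s = t := by
  rw [kInv_of_lt ht] at h
  apply Subtype.ext
  rw [eq_of_kInv h, kk_ki ht]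

/-! ### branches -/

lemma cf_infty (a b : ℝ) : cfMap a b ∞ = ∞ := rfl

lemma cf_left {a b x : ℝ} (h : x < a) : cfMap a b (x : OnePoint ℝ) = ((x + 1 : ℝ) : OnePoint ℝ) := by
  simp [cfMap, h]

lemma cf_mid {a b x : ℝ} (h : a ≤ x) (h' : x < b) (h0 : x ≠ 0) :
    cfMap a b (x : OnePoint ℝ) = ((-1 / x : ℝ) : OnePoint ℝ) := by
  simp [cfMap, not_lt.2 h, h', h0]

lemma cf_zero {a b : ℝ} (h : a ≤ 0) (h' : 0 < b) : cfMap a b ((0 : ℝ) : OnePoint ℝ) = ∞ := by
  simp [cfMap, not_lt.2 h, h']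

lemma cf_right {a b x : ℝ} (h : a ≤ x) (h' : b ≤ x) :
    cfMap a b (x : OnePoint ℝ) = ((x - 1 : ℝ) : OnePoint ℝ) := by
  simp [cfMap, not_lt.2 h, not_lt.2 h']

lemma good_branch (c : Bool) {a b : ℝ} {F : XI → XI} (hF : IsIntervalModel a b F) {S : Set ℝ}
    (hS : S.OrdConnected) {m : ℝ → ℝ} (hm : StrictMonoOn m S) (hmc : ContinuousOn m S)
    (hf : ∀ x ∈ S, cfMap a b (x : OnePoint ℝ) = ((m x : ℝ) : OnePoint ℝ)) :
    Good c F {t : XI | |(t : ℝ)| < 1 ∧ ki t ∈ S} := by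
  have hval : ∀ t : XI, |(t : ℝ)| < 1 → ki t ∈ S → (F t : ℝ) = kk (m (ki t)) := by
    intro t h1 h2
    apply eq_of_kInv
    rw [hF t, kInv_of_lt h1, hf _ h2]
  refine ⟨⟨?_⟩, ?_, fun _ => ?_⟩
  · rintro u ⟨hu, hu'⟩ v ⟨hv, hv'⟩ w ⟨h1, h2⟩
    have h1' : (u : ℝ) ≤ w := h1
    have h2' : (w : ℝ) ≤ v := h2
    have hw : |(w : ℝ)| < 1 := by
      rw [abs_lt] at hu hv ⊢; constructor <;> linarith [hu.1, hv.2]
    exact ⟨hw, hS.out hu' hv' ⟨ki_le hu hw h1', ki_le hw hv h2'⟩⟩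
  · rintro u ⟨hu, hu'⟩ v ⟨hv, hv'⟩ huv
    have : (F u : ℝ) < F v := by
      rw [hval u hu hu', hval v hv hv']
      exact kk_strictMono (hm hu' hv' (ki_lt hu hv huv))
    exact this
  · rw [Topology.IsInducing.subtypeVal.continuousOn_iff]
    have h1 : ContinuousOn (fun t : XI => ki t) {t : XI | |(t : ℝ)| < 1 ∧ ki t ∈ S} := by
      unfold ki
      refine continuous_subtype_val.continuousOn.div
        (continuous_const.sub continuous_subtype_val.abs).continuousOn ?_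
      rintro t ⟨ht, -⟩
      have : 0 < 1 - |(t : ℝ)| := by linarith
      exact this.ne'
    have h2 := kk_continuous.comp_continuousOn (hmc.comp h1 (fun t ht => ht.2))
    exact h2.congr (fun t ht => hval t ht.1 ht.2)

lemma model_pw (c : Bool) {a b : ℝ} {F : XI → XI} (hF : IsIntervalModel a b F) : PW c F := by
  let P : Set ℝ → Set XI := fun S => {t : XI | |(t : ℝ)| < 1 ∧ ki t ∈ S}
  let C : Fin 7 → Set XI :=
    ![{⟨-1, by norm_num⟩}, {⟨1, by norm_num⟩}, {⟨0, by norm_num⟩}, P (Iio a),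
      P (Ico a b ∩ Iio 0), P (Ico a b ∩ Ioi 0), P (Ici a ∩ Ici b)]
  refine ⟨Fin 7, inferInstance, C, ?_, ?_⟩
  · intro i
    fin_cases i
    · exact good_of_subsingleton c F subsingleton_singleton
    · exact good_of_subsingleton c F subsingleton_singleton
    · exact good_of_subsingleton c F subsingleton_singleton
    · exact good_branch c hF ordConnected_Iio (m := fun x => x + 1)
        (fun x _ y _ h => by simpa using h) (by fun_prop) (fun x hx => cf_left hx)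
    · refine good_branch c hF (ordConnected_Ico.inter ordConnected_Iio) (m := fun x => -1 / x)
        ?_ ?_ (fun x hx => cf_mid hx.1.1 hx.1.2 (ne_of_lt hx.2))
      · intro x hx y hy h
        have hx0 : x < 0 := hx.2
        have hy0 : y < 0 := hy.2
        have e1 : -1 / x = 1 / (-x) := by rw [div_neg, neg_div]
        have e2 : -1 / y = 1 / (-y) := by rw [div_neg, neg_div]
        simp only [e1, e2]
        exact one_div_lt_one_div_of_lt (by linarith) (by linarith)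
      · exact continuousOn_const.div continuousOn_id (fun x hx => ne_of_lt hx.2)
    · refine good_branch c hF (ordConnected_Ico.inter ordConnected_Ioi) (m := fun x => -1 / x)
        ?_ ?_ (fun x hx => cf_mid hx.1.1 hx.1.2 (ne_of_gt hx.2))
      · intro x hx y hy h
        have hx0 : 0 < x := hx.2
        simp only [neg_div]
        exact neg_lt_neg (one_div_lt_one_div_of_lt hx0 h)
      · exact continuousOn_const.div continuousOn_id (fun x hx => ne_of_gt hx.2)
    · exact good_branch c hF (ordConnected_Ici.inter ordConnected_Ici) (m := fun x => x - 1)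
        (fun x _ y _ h => by simpa using h) (by fun_prop) (fun x hx => cf_right hx.1 hx.2)
  · intro t
    rcases (abs_le_one t).eq_or_lt with h1 | h1
    · rcases abs_eq (by norm_num : (0 : ℝ) ≤ 1) |>.1 h1 with h | h
      · exact ⟨1, Subtype.ext h⟩
      · exact ⟨0, Subtype.ext h⟩
    · rcases lt_or_ge (ki t) a with h | h
      · exact ⟨3, h1, h⟩
      · rcases lt_or_ge (ki t) b with h' | h'
        · rcases lt_trichotomy (ki t) 0 with h0 | h0 | h0
          · exact ⟨4, h1, ⟨h, h'⟩, h0⟩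
          · refine ⟨2, Subtype.ext ?_⟩
            have := kk_ki h1
            rw [h0] at this
            simpa [kk] using this.symm
          · exact ⟨5, h1, ⟨h, h'⟩, h0⟩
        · exact ⟨6, h1, h, h'⟩

/-! ### the matching identities -/

lemma agree {a b x : ℝ} (ha : -1 ≤ a) (hx : x < -1 ∨ a ≤ x) :
    cfMap a b (x : OnePoint ℝ) = cfMap (-1) b (x : OnePoint ℝ) := by
  rcases hx with h | h
  · rw [cf_left h, cf_left (lt_of_lt_of_le h ha)]
  · simp [cfMap, not_lt.2 h, not_lt.2 (ha.trans h)]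

section
variable {a b x : ℝ} (hb0 : 0 ≤ b) (hb1 : b ≤ 1) (ha1 : -1 ≤ a) (ha2 : a ≤ -1 / (b + 1))
  (hx1 : -1 ≤ x) (hx2 : x < a)
include hb0 hb1 ha1 ha2 hx1 hx2

lemma key_ineq : x * (b + 1) < -1 := by
  have h : x < -1 / (b + 1) := lt_of_lt_of_le hx2 ha2
  rwa [lt_div_iff₀ (by linarith)] at h

lemma x_neg : x < 0 := by
  have := key_ineq hb0 hb1 ha1 ha2 hx1 hx2
  nlinarith

lemma a_neg : a < 0 := lt_of_le_of_lt ha2 (div_neg_of_neg_of_pos (by norm_num) (by linarith))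

lemma succ_lt : x + 1 < b := by
  have := key_ineq hb0 hb1 ha1 ha2 hx1 hx2
  nlinarith

lemma one_le_inv : 1 ≤ -1 / x := by
  have h := x_neg hb0 hb1 ha1 ha2 hx1 hx2
  rw [le_div_iff_of_neg h]; linarith

lemma inv_lt : -1 / x - 1 < b := by
  have h := x_neg hb0 hb1 ha1 ha2 hx1 hx2
  have := key_ineq hb0 hb1 ha1 ha2 hx1 hx2
  have : -1 / x < b + 1 := by rw [div_lt_iff_of_neg h]; linarith
  linarith

lemma inv_succ_lt (h : x ≠ -1) : -1 / (x + 1) < -1 := by
  have h0 := x_neg hb0 hb1 ha1 ha2 hx1 hx2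
  have h1 : 0 < x + 1 := by
    rcases hx1.eq_or_lt with e | e
    · exact absurd e.symm h
    · linarith
  rw [div_lt_iff₀ h1]; linarith

/-- two steps of either map from `x + 1` and from `-1 / x` end at the same point -/
lemma two_steps {a₁ a₂ : ℝ} (h1 : -1 ≤ a₁) (h1' : a₁ ≤ 0) (h2' : a₂ ≤ 0) :
    cfMap a₁ b (cfMap a₁ b ((x + 1 : ℝ) : OnePoint ℝ)) =
      cfMap a₂ b (cfMap a₂ b ((-1 / x : ℝ) : OnePoint ℝ)) := by
  have i1 := succ_lt hb0 hb1 ha1 ha2 hx1 hx2
  have i2 := one_le_inv hb0 hb1 ha1 ha2 hx1 hx2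
  have i3 := inv_lt hb0 hb1 ha1 ha2 hx1 hx2
  have i4 := x_neg hb0 hb1 ha1 ha2 hx1 hx2
  rw [cf_right (x := -1 / x) (by linarith) (by linarith)]
  by_cases h : x = -1
  · subst h
    have hb : 0 < b := by linarith
    have e1 : (-1 + 1 : ℝ) = 0 := by norm_num
    have e2 : (-1 / -1 - 1 : ℝ) = 0 := by norm_num
    rw [e1, e2, cf_zero h1' hb, cf_zero h2' hb, cf_infty]
  · have i5 := inv_succ_lt hb0 hb1 ha1 ha2 hx1 hx2 h
    have h3 : x + 1 ≠ 0 := fun e => h (by linarith)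
    have h4 : -1 / x - 1 ≠ 0 := by
      intro e
      apply h
      have hx0 : x ≠ 0 := i4.ne
      field_simp at e
      linarith
    rw [cf_mid (x := x + 1) (by linarith) i1 h3, cf_left (by linarith),
      cf_mid (x := -1 / x - 1) (by linarith) i3 h4]
    congr 1
    have hx0 : x ≠ 0 := i4.ne
    have h5 : -1 - x ≠ 0 := fun e => h (by linarith)
    have h6 : -1 / x - 1 = (-1 - x) / x := by field_simp
    rw [h6]
    field_simp
    ring

end

section
variable {a b : ℝ} (hb0 : 0 ≤ b) (hb1 : b ≤ 1) (ha1 : -1 ≤ a) (ha2 : a ≤ -1 / (b + 1))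
include hb0 hb1 ha1 ha2

lemma match_identity {a' : ℝ} (h1 : -1 ≤ a') (h1' : a' ≤ 0) (p : OnePoint ℝ) :
    cfMap a' b (cfMap a' b (cfMap a b p)) = cfMap a' b (cfMap a' b (cfMap (-1) b p)) := by
  induction p using OnePoint.rec with
  | infty => rfl
  | coe x =>
    by_cases hx : x < -1 ∨ a ≤ x
    · rw [agree ha1 hx]
    · rw [not_or, not_lt, not_le] at hx
      have i4 := x_neg hb0 hb1 ha1 ha2 hx.1 hx.2
      rw [cf_left hx.2, cf_mid hx.1 (by linarith) i4.ne]
      exact two_steps hb0 hb1 ha1 ha2 hx.1 hx.2 h1 h1' h1'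

end

lemma iterate_shift {α : Type} {f g : α → α} (h : ∀ p, f (f (f p)) = f (f (g p))) (n : ℕ) (p : α) :
    f^[n + 2] p = f^[2] (g^[n] p) := by
  induction n generalizing p with
  | zero => rfl
  | succ n ih =>
    have e : n + 1 + 2 = (n + 2) + 1 := by ring
    rw [e, Function.iterate_succ_apply', ih, Function.iterate_succ_apply' g]
    exact h _

lemma model_iterate {a b : ℝ} {F : XI → XI} (hF : IsIntervalModel a b F) (n : ℕ) (t : XI) :
    kInv (F^[n] t) = (cfMap a b)^[n] (kInv t) := by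
  induction n with
  | zero => rfl
  | succ n ih => rw [Function.iterate_succ_apply', Function.iterate_succ_apply', hF, ih]

lemma lim_le (c : Bool) {a₁ a₂ b : ℝ} {F G : XI → XI} (hF : IsIntervalModel a₁ b F)
    (hG : IsIntervalModel a₂ b G)
    (hid : ∀ p, cfMap a₁ b (cfMap a₁ b (cfMap a₁ b p)) = cfMap a₁ b (cfMap a₁ b (cfMap a₂ b p)))
    {h k : ℝ}
    (hu : Tendsto (fun n : ℕ => Real.log ((Lp c F^[n]).ncard : ℝ) / n) atTop (𝓝 h))
    (hv : Tendsto (fun n : ℕ => Real.log ((Lp c G^[n]).ncard : ℝ) / n) atTop (𝓝 k)) : h ≤ k := by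
  have pF := model_pw c hF
  have pG := model_pw c hG
  refine lim_le_of_shift (C := Real.log (3 * ((Lp c F^[2]).ncard : ℝ))) hu hv fun n => ?_
  have hc := (pF.iterate 2).comp_le (pG.iterate n)
  have hm : (Lp c F^[n + 2]).ncard ≤ 3 * (Lp c (F^[2] ∘ G^[n])).ncard := by
    refine hc.1.modify_le ⟨-1, by norm_num⟩ ⟨1, by norm_num⟩ (fun x => x.2.1) (fun x => x.2.2) ?_
    intro t h1 h2
    refine eq_of_kInv_eq ?_ (abs_lt.2 ⟨h1, h2⟩)
    rw [model_iterate hF, Function.comp_apply, model_iterate hF, model_iterate hG]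
    exact iterate_shift hid n _
  have p1 : (0 : ℝ) < ((Lp c F^[n + 2]).ncard : ℝ) := by exact_mod_cast (pF.iterate _).one_le
  have p2 : (0 : ℝ) < ((Lp c F^[2]).ncard : ℝ) := by exact_mod_cast (pF.iterate _).one_le
  have p3 : (0 : ℝ) < ((Lp c G^[n]).ncard : ℝ) := by exact_mod_cast (pG.iterate _).one_le
  rw [← Real.log_mul (by positivity) p3.ne']
  refine Real.log_le_log p1 ?_
  have : (Lp c F^[n + 2]).ncard ≤ 3 * (Lp c F^[2]).ncard * (Lp c G^[n]).ncard := by
    rw [mul_assoc]; exact hm.trans (Nat.mul_le_mul_left 3 hc.2)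
  exact_mod_cast this

lemma hasEntropy_of (c : Bool) {a b : ℝ} (hb0 : 0 ≤ b) (hb1 : b ≤ 1) (ha1 : -1 ≤ a)
    (ha2 : a ≤ -1 / (b + 1)) {G : XI → XI} (hG : IsIntervalModel (-1) b G) {k : ℝ}
    (hv : Tendsto (fun n : ℕ => Real.log ((Lp c G^[n]).ncard : ℝ) / n) atTop (𝓝 k)) :
    HasEntropy c a b k := by
  refine ⟨exists_model a b, fun F hF => ⟨fun n => ((model_pw c hF).iterate n).finite, ?_⟩⟩
  obtain ⟨h, hu⟩ := (model_pw c hF).exists_lim
  have ha0 : a ≤ 0 := ha2.trans (div_neg_of_neg_of_pos (by norm_num) (by linarith)).le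
  have h1 : h ≤ k := lim_le c hF hG (match_identity hb0 hb1 ha1 ha2 ha1 ha0) hu hv
  have h2 : k ≤ h := lim_le c hG hF
    (fun p => (match_identity hb0 hb1 ha1 ha2 le_rfl (by norm_num) p).symm) hv hu
  rw [← le_antisymm h1 h2]
  exact hu

theorem plateau (c : Bool) {a b : ℝ} (hb0 : 0 ≤ b) (hb1 : b ≤ 1) (ha1 : -1 ≤ a)
    (ha2 : a ≤ -1 / (b + 1)) : ∃ h : ℝ, HasEntropy c a b h ∧ HasEntropy c (-1) b h := by
  obtain ⟨G, hG⟩ := exists_model (-1) b
  obtain ⟨k, hv⟩ := (model_pw c hG).exists_lim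
  exact ⟨k, hasEntropy_of c hb0 hb1 ha1 ha2 hG hv,
    hasEntropy_of c hb0 hb1 le_rfl (ha1.trans ha2) hG hv⟩

end Pool.Agent.Lib.MP_a78abf_an
end
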